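import Pool.Agent.Helper40.W4.Spec
import Pool.Agent.Helper40.W4.FORM
import Pool.Agent.Helper40.W4.RAT
import Pool.Agent.Helper40.W4.LAU
import Pool.Agent.Helper86.W4.Wval
import Pool.Agent.Helper86.W4.Sound
import Pool.Agent.Helper51.W4.PFI
import Pool.Agent.Helper51.W4.Uniq
import Pool.Agent.Helper51.W4.I2
import Pool.Agent.Helper92.W4.DISC
import Pool.Agent.Helper92.W4.CL
import Pool.Agent.Helper92.W4.LG
import Pool.Agent.Helper92.W4.LGT
import Pool.Agent.Helper52.W4.PHI
import Pool.Agent.Helper52.W4.MIL
import Pool.Agent.Helper39.W4.TOW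
import Pool.Agent.Helper78.W4.I3
import Pool.Agent.Helper78.W4.H12
import Pool.Agent.Helper77.W4.I4
import Pool.Agent.Helper77.W4.NSP
import Pool.Agent.Helper49.W4.LGSTEP
import Pool.Agent.Helper49.W4.G
import Pool.Agent.Helper41.W4.W3
import Pool.Agent.Helper41.W4.PIDC
import Pool.Agent.Helper99.W4.DEGB
import Pool.Agent.Helper99.W4.DED
import Pool.Agent.Helper5.W4.ADD
import Pool.Agent.Helper5.W4.PT
import Pool.Agent.Helper5.W4.ABS
import Pool.Agent.Helper5.W4.EL2R
import Pool.Agent.Helper5.W4.EL2C
import Pool.Agent.Helper55.W4.EL3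
import Pool.Agent.Helper55.W4.ODD
import Pool.Agent.Helper66.W4.BASE
import Pool.Agent.Helper88.W4.ConicStep
import Pool.Agent.Helper89.W4.TOWER

set_option autoImplicit false

/-!
# A field with `w`-invariant at least three in which `I⁴` has no torsion

A quadratic form over a field `K` of characteristic not two is weakly isotropic if `n × φ` is isotropic
for some `n`, and minimal weakly isotropic if moreover no proper subform (orthogonal summand of smaller
dimension) is weakly isotropic; `w(K)` is the supremum of the dimensions of the regular minimal weakly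
isotropic forms.  `W K` is the Witt ring and `I K` its fundamental ideal.

Theorem: there is a field `K` (of the form `F(X)`) with `w(K) ≥ 3` and `I⁴_tors K = 0`.

Idea of the proof.
(1) There is a countable real field `k` with elements `a`, `c` such that `a` and `f = a X⁶ + X⁵ + c` are sums
of squares, `a` is not a square, no value `f(x)` is a square, `k` has no proper extensions of odd degree, and
binary forms over `k(i)` are universal.  It is the union of a chain of subfields of the real numbers; one
adjoins generic zeros of conics and roots of polynomials of odd degree.  That no value `f(x)` becomes a square is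
shown by means of an invariant: if `E` is a field of the chain (with `i` adjoined) and `σ` is the automorphism of
`E(√c) / E`, then no ideal of odd codimension of the Dedekind ring `B = E(√c)[X, Y] / (Y² - f)` is equivalent to
its image under `σ`.  At the start, with `a`, `c` independent over the rational numbers, `B[1/X]` is a principal
ideal domain; the class group of `B` does not change when one adjoins a generic point of a conic, and for odd
extensions one takes norms of ideals.
(2) So `I²_tors l = 0` for all finite extensions `l` of `k`, and `I³_tors N = 0` for all finite extensions `N` of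
`k((z))`.
(3) There is a countable field `F` containing `k(α)` with two embeddings into `k((z))` over `k`, one sending `α` to `z`,
the other to `z⁻¹`, with the following local-global principle: for each finite extension `L` of `F`, a quadratic
form of dimension at least three over `L` is isotropic as soon as it is isotropic over all factors of the two
tensor products of `L` with `k((z))`.  (Generic zeros over the two fields generate isomorphic extensions.)  So
`I³_tors L = 0` for all finite extensions `L` of `F`, and `I⁴_tors F(X) = 0` by the exact sequence of Milnor.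
(4) The form `φ = ⟨α f, 1, -γ⟩` with `γ = α + a` over `F(X)` is weakly isotropic.  It contains no weakly isotropic binary
form: otherwise there are polynomials, not all zero, with `γ x² + α γ f z² = α f y² + ∑ wᵢ²`; by the two conditions
that `⟨α, -α γ⟩ ⊥ m × ⟨1⟩` (first embedding, `a` is not a square) and `⟨-γ, α f(x)⟩ ⊥ m × ⟨1⟩` (second embedding, `f(x)` is not a
square) are anisotropic over all extensions of odd degree, one can assume that `x` and `z` have even degree, but
comparing degrees gives `deg x = deg z + 3`.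
-/

namespace Pool.Agent.Results.MP_2fcb4d_al.TorsionFreeFourthPower

open Pool.Agent.Helper40.W4 Polynomial

/-- The quadratic form `φ` is weakly isotropic: the orthogonal sum `n × φ` of `n` copies of `φ` is isotropic
for some `n`. -/
def WeaklyIsotropic {K V : Type} [Field K] [AddCommGroup V] [Module K V]
    (φ : QuadraticForm K V) : Prop :=
  ∃ n : ℕ, ¬ (QuadraticMap.pi fun _ : Fin n => φ).Anisotropic

/-- `ψ` is a subform of `φ`: `φ` is isometric to `ψ ⊥ χ` for some (finite-dimensional) form `χ`. -/
def IsSubform {K V W : Type} [Field K] [AddCommGroup V] [Module K V] [AddCommGroup W] [Module K W]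
    (ψ : QuadraticForm K W) (φ : QuadraticForm K V) : Prop :=
  ∃ (U : Type) (_ : AddCommGroup U) (_ : Module K U) (_ : FiniteDimensional K U)
    (χ : QuadraticForm K U), Nonempty (φ.IsometryEquiv (ψ.prod χ))

/-- `φ` is minimal weakly isotropic: it is weakly isotropic, and no proper subform is. -/
def MinimalWeaklyIsotropic {K V : Type} [Field K] [AddCommGroup V] [Module K V]
    (φ : QuadraticForm K V) : Prop :=
  WeaklyIsotropic φ ∧
    ∀ (W : Type) [AddCommGroup W] [Module K W] [FiniteDimensional K W] (ψ : QuadraticForm K W),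
      IsSubform ψ φ → Module.finrank K W < Module.finrank K V → ¬ WeaklyIsotropic ψ

/-- The `w`-invariant: the supremum of the dimensions of the (regular, finite-dimensional) minimal weakly
isotropic forms over `K`. -/
noncomputable def wInvariant (K : Type) [Field K] : ℕ∞ :=
  sSup {d : ℕ∞ | ∃ (V : Type) (_ : AddCommGroup V) (_ : Module K V) (_ : FiniteDimensional K V)
    (φ : QuadraticForm K V), (QuadraticMap.polarBilin φ).Nondegenerate ∧
      MinimalWeaklyIsotropic φ ∧ d = Module.finrank K V}

/-- The element `⟨a₁⟩ + … + ⟨aₙ⟩` of the group ring `ℤ[Kˣ]`. -/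
noncomputable def diagSum {K : Type} [Field K] {n : ℕ} (a : Fin n → Kˣ) : MonoidAlgebra ℤ Kˣ :=
  ∑ i, MonoidAlgebra.of ℤ Kˣ (a i)

/-- The diagonal form `⟨a₁, …, aₙ⟩`. -/
noncomputable def diag {K : Type} [Field K] {n : ℕ} (a : Fin n → Kˣ) : QuadraticForm K (Fin n → K) :=
  QuadraticMap.weightedSumSquares K (fun i => (a i : K))

/-- The relations of the Witt ring: isometric diagonal forms are identified, and the hyperbolic plane
`⟨1, -1⟩` is zero. -/
noncomputable def wittIdeal (K : Type) [Field K] : Ideal (MonoidAlgebra ℤ Kˣ) :=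
  Ideal.span ({x | ∃ (n : ℕ) (a b : Fin n → Kˣ), (diag a).Equivalent (diag b) ∧
      x = diagSum a - diagSum b} ∪ {diagSum ![1, -1]})

/-- The Witt ring `W K` (of a field of characteristic not two, in which all regular forms are diagonal up to
isometry): the ring `ℤ[Kˣ]` modulo these relations. -/
def WittRing (K : Type) [Field K] : Type := MonoidAlgebra ℤ Kˣ ⧸ wittIdeal K

noncomputable instance (K : Type) [Field K] : CommRing (WittRing K) :=
  Ideal.Quotient.commRing (wittIdeal K)

/-- The class of a diagonal form in the Witt ring. -/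
noncomputable def wittClass {K : Type} [Field K] {n : ℕ} (a : Fin n → Kˣ) : WittRing K :=
  Ideal.Quotient.mk (wittIdeal K) (diagSum a)

/-- The fundamental ideal `I K`: the ideal of the classes of the forms of even dimension. -/
noncomputable def fundamentalIdeal (K : Type) [Field K] : Ideal (WittRing K) :=
  Ideal.span {x | ∃ (n : ℕ) (a : Fin n → Kˣ), Even n ∧ x = wittClass a}

/-- `Iⁿ K` is torsion free: `Iⁿ_tors K = 0`. -/
def ITorsZero (n : ℕ) (K : Type) [Field K] : Prop :=
  ∀ ξ ∈ fundamentalIdeal K ^ n, (∃ N : ℕ, 0 < N ∧ N • ξ = 0) → ξ = 0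

section w

variable {K : Type} [Field K] {q : Fin 3 → K}

/-- A weakly isotropic form of dimension three without weakly isotropic hyperplanes. -/
theorem w_ge (h2 : (2 : K) ≠ 0) (hq : ∀ i, q i ≠ 0)
    (hwi : ∃ (n : ℕ) (y : Fin n → Fin 3 → K), y ≠ 0 ∧ ∑ k, ∑ i, q i * y k i ^ 2 = 0)
    (hmin : ∀ w : Fin 3 → K, w ≠ 0 → ¬ WIker q w) : 3 ≤ wInvariant K := by
  set φ : QuadraticForm K (Fin 3 → K) := QuadraticMap.weightedSumSquares K q with hφd
  have hφ : ∀ x : Fin 3 → K, φ x = ∑ i, q i * x i ^ 2 := by
    intro x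
    rw [hφd, QuadraticMap.weightedSumSquares_apply]
    refine Finset.sum_congr rfl fun i _ => ?_
    rw [smul_eq_mul, pow_two]
  -- regularity
  have hpol : ∀ (x : Fin 3 → K) (i : Fin 3),
      QuadraticMap.polarBilin φ x (Pi.single i 1) = 2 * q i * x i := by
    intro x i
    rw [QuadraticMap.polarBilin_apply_apply, QuadraticMap.polar, hφ, hφ, hφ,
      ← Finset.sum_sub_distrib, ← Finset.sum_sub_distrib]
    rw [Finset.sum_eq_single i]
    · simp; ring
    · intro j _ hj
      rw [Pi.add_apply, Pi.single_eq_of_ne hj]; ring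
    · intro h; exact absurd (Finset.mem_univ i) h
  have hsep : ∀ x : Fin 3 → K, (∀ y, QuadraticMap.polarBilin φ x y = 0) → x = 0 := by
    intro x hx
    funext i
    have := hx (Pi.single i 1)
    rw [hpol] at this
    exact (mul_eq_zero.1 this).resolve_left (mul_ne_zero h2 (hq i))
  have hreg : (QuadraticMap.polarBilin φ).Nondegenerate := by
    refine ⟨hsep, ?_⟩
    intro y hy
    refine hsep y fun x => ?_
    have := hy x
    rw [QuadraticMap.polarBilin_apply_apply] at this ⊢
    rw [QuadraticMap.polar_comm]; exact this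
  -- weak isotropy
  have hwi' : WeaklyIsotropic φ := by
    obtain ⟨n, y, hy, hs⟩ := hwi
    refine ⟨n, ?_⟩
    rw [QuadraticMap.not_anisotropic_iff_exists]
    refine ⟨y, hy, ?_⟩
    rw [QuadraticMap.pi_apply, ← hs]
    exact Finset.sum_congr rfl fun k _ => hφ _
  -- minimality
  have hmin' : MinimalWeaklyIsotropic φ := by
    refine ⟨hwi', ?_⟩
    intro W _ _ _ ψ hsub hdim hψ
    obtain ⟨U, _, _, _, χ, ⟨e⟩⟩ := hsub
    obtain ⟨n, hn⟩ := hψ
    rw [QuadraticMap.not_anisotropic_iff_exists] at hn
    obtain ⟨x, hx, hx0⟩ := hn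
    -- the embedding of `W`
    set j : W →ₗ[K] (Fin 3 → K) := e.symm.toLinearEquiv.toLinearMap ∘ₗ LinearMap.inl K W U
      with hj
    have hjinj : Function.Injective j := by
      rw [hj, LinearMap.coe_comp]
      exact e.symm.toLinearEquiv.injective.comp LinearMap.inl_injective
    have hjφ : ∀ v, φ (j v) = ψ v := by
      intro v
      have := e.symm.map_app (v, 0)
      rw [QuadraticMap.prod_apply, map_zero, add_zero] at this
      exact this
    have hlt : LinearMap.range j < ⊤ := by
      refine lt_top_iff_ne_top.2 fun htop => ?_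
      have h1 := LinearMap.finrank_range_of_inj hjinj
      rw [htop, finrank_top] at h1
      omega
    obtain ⟨g, hg, hgle⟩ := Submodule.exists_le_ker_of_lt_top _ hlt
    set w : Fin 3 → K := fun i => g (Pi.single i 1) with hw
    have hgw : ∀ v : Fin 3 → K, g v = ∑ i, w i * v i := by
      intro v
      conv_lhs => rw [← Finset.univ_sum_single v]
      rw [map_sum]
      refine Finset.sum_congr rfl fun i _ => ?_
      have : (Pi.single i (v i) : Fin 3 → K) = v i • Pi.single i 1 := by
        rw [← Pi.single_smul, smul_eq_mul, mul_one]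
      rw [this, map_smul, smul_eq_mul, mul_comm]
    have hw0 : w ≠ 0 := by
      intro h0
      apply hg
      refine LinearMap.ext fun v => ?_
      rw [hgw v, h0]
      simp
    refine hmin w hw0 ⟨n, fun k => j (x k), ?_, ?_, ?_⟩
    · intro h0
      apply hx
      funext k
      have h6 : j (x k) = 0 := congrFun h0 k
      exact hjinj (h6.trans (map_zero j).symm)
    · intro k
      rw [← hgw]
      exact hgle ⟨x k, rfl⟩
    · have h5 : ∑ k, φ (j (x k)) = 0 := by
        rw [QuadraticMap.pi_apply] at hx0
        rw [← hx0]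
        exact Finset.sum_congr rfl fun k _ => hjφ _
      rw [← h5]
      refine Finset.sum_congr rfl fun k _ => ?_
      rw [hφ]
  refine le_sSup ⟨Fin 3 → K, inferInstance, inferInstance, inferInstance, φ, hreg, hmin', ?_⟩
  simp

end w

section witt

variable {K : Type} [Field K]

lemma diagSum_eq {n : ℕ} (a : Fin n → Kˣ) : diagSum a = ∑ i, gen (a i) := rfl

lemma mk_diagSum {n : ℕ} (a : Fin n → Kˣ) : Wmk (diagSum a) = cl a := by
  rw [diagSum_eq, map_sum]; rfl

lemma diag_apply {n : ℕ} (a : Fin n → Kˣ) (x : Fin n → K) : diag a x = ∑ i, (a i : K) * x i ^ 2 := by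
  rw [diag, QuadraticMap.weightedSumSquares_apply]
  refine Finset.sum_congr rfl fun i _ => ?_
  rw [smul_eq_mul, pow_two]

variable [CharZero K]

/-- Isometric forms have the same class. -/
lemma cl_eq_of_equivalent (hS : S_SOUND) {n : ℕ} {a b : Fin n → Kˣ}
    (h : (diag a).Equivalent (diag b)) : cl a = cl b := by
  obtain ⟨e⟩ := h
  have h1 : cl (Fin.append a (fun i => -b i)) = 0 := by
    rw [(hS K).1]
    -- the graph of the isometry
    let f : (Fin n → K) →ₗ[K] (Fin (n + n) → K) :=
      { toFun := fun x => Fin.append x (e x)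
        map_add' := fun x y => by
          funext i
          refine Fin.addCases (fun i => ?_) (fun i => ?_) i
          · simp only [Fin.append_left, Pi.add_apply]
          · simp only [Fin.append_right, Pi.add_apply, map_add]
        map_smul' := fun r x => by
          funext i
          refine Fin.addCases (fun i => ?_) (fun i => ?_) i
          · simp only [Fin.append_left, Pi.smul_apply, RingHom.id_apply]
          · simp only [Fin.append_right, Pi.smul_apply, map_smul, RingHom.id_apply] }
    have hf : Function.Injective f := by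
      intro x y hxy
      funext i
      have := congrFun hxy (Fin.castAdd n i)
      simpa [f] using this
    refine ⟨LinearMap.range f, ?_, ?_⟩
    · rintro _ ⟨x, rfl⟩
      rw [Fin.sum_univ_add]
      have h2 : diag b (e x) = diag a x := e.map_app x
      rw [diag_apply, diag_apply] at h2
      simp only [f, LinearMap.coe_mk, AddHom.coe_mk, Fin.append_left, Fin.append_right,
        Units.val_neg, neg_mul, Finset.sum_neg_distrib]
      rw [h2, add_neg_cancel]
    · rw [LinearMap.finrank_range_of_inj hf]
      simp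
      ring
  have h3 : cl (Fin.append a (fun i => -b i)) = cl a - cl b := by
    simp only [cl, Fin.sum_univ_add, Fin.append_left, Fin.append_right, br_neg,
      Finset.sum_neg_distrib, sub_eq_add_neg]
  rw [h3] at h1
  exact sub_eq_zero.1 h1

lemma equiv_of_eq1 {a b : Fin 1 → Kˣ} (u : Kˣ) (h : a 0 = b 0 * u ^ 2) :
    (diag a).Equivalent (diag b) := by
  refine ⟨⟨LinearEquiv.smulOfUnit (M := Fin 1 → K) u, fun x => ?_⟩⟩
  show diag b (u • x) = diag a x
  rw [diag_apply, diag_apply]
  simp [h, Units.smul_def]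
  ring

/-- `⟨a, b⟩ = ⟨c, abc⟩` for `c = a x² + b y²`. -/
lemma equiv_of_val {a b c x y : K} {u v : Fin 2 → Kˣ} (hu : (u 0 : K) = a) (hu' : (u 1 : K) = b)
    (hv : (v 0 : K) = c) (hv' : (v 1 : K) = a * b * c) (hc : a * x ^ 2 + b * y ^ 2 = c) :
    (diag u).Equivalent (diag v) := by
  have ha0 : a ≠ 0 := hu ▸ (u 0).ne_zero
  have hb0 : b ≠ 0 := hu' ▸ (u 1).ne_zero
  have hc0 : c ≠ 0 := hv ▸ (v 0).ne_zero
  -- new coordinates: `(s, t) ↦ s (x, y) + t (-b y, a x)`, inverse map
  let M : Matrix (Fin 2) (Fin 2) K := !![x, -b * y; y, a * x]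
  have hM : M.det = c := by
    simp [M, Matrix.det_fin_two]
    linear_combination hc
  have hMu : IsUnit M.det := by rw [hM]; exact hc0.isUnit
  let e : (Fin 2 → K) ≃ₗ[K] (Fin 2 → K) := Matrix.toLinearEquiv' M (M.invertibleOfIsUnitDet hMu)
  have he : ∀ z, diag u (e z) = diag v z := by
    intro z
    have h1 : e z = M.mulVec z := rfl
    rw [diag_apply, diag_apply, h1]
    simp only [Fin.sum_univ_two, hu, hu', hv, hv', M, Matrix.mulVec, dotProduct,
      Matrix.of_apply, Matrix.cons_val', Matrix.cons_val_zero, Matrix.cons_val_one,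
      Matrix.cons_val_fin_one]
    rw [← hc]
    ring
  exact QuadraticMap.Equivalent.symm ⟨⟨e, he⟩⟩

lemma wittIdeal_eq (hS : S_SOUND) : wittIdeal K = relIdeal K := by
  apply le_antisymm
  · refine Ideal.span_le.2 ?_
    rintro x (⟨n, a, b, h, rfl⟩ | rfl)
    · exact Wmk_eq.1 (by rw [mk_diagSum, mk_diagSum]; exact cl_eq_of_equivalent hS h)
    · refine Wmk_eq_zero.1 ?_
      rw [mk_diagSum, cl, Fin.sum_univ_two]
      simp [br_neg]
  · have hsub : ∀ {n : ℕ} {a b : Fin n → Kˣ}, (diag a).Equivalent (diag b) →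
        diagSum a - diagSum b ∈ wittIdeal K := fun h => Ideal.subset_span (Or.inl ⟨_, _, _, h, rfl⟩)
    have hyp : diagSum (![1, -1] : Fin 2 → Kˣ) ∈ wittIdeal K := Ideal.subset_span (Or.inr rfl)
    refine Ideal.span_le.2 ?_
    rintro x ((⟨a, b, rfl⟩ | ⟨a, rfl⟩) | ⟨a, b, c, h, rfl⟩)
    · have := hsub (equiv_of_eq1 (a := ![a * b ^ 2]) (b := ![a]) b (by simp))
      simpa [diagSum_eq] using this
    · -- `⟨a, -a⟩ = ⟨1, -a²⟩`, `⟨-a²⟩ = ⟨-1⟩`
      have h1 := hsub (equiv_of_val (u := ![a, -a]) (v := ![1, -a ^ 2]) (a := (a : K)) (b := -a)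
        (c := 1) (x := ((a : K)⁻¹ + 1) / 2) (y := ((a : K)⁻¹ - 1) / 2) (by simp) (by simp) (by simp)
        (by simp; ring) (by
          have ha := a.ne_zero
          field_simp
          ring))
      have h2 := hsub (equiv_of_eq1 (a := ![-a ^ 2]) (b := ![-1]) a (by simp))
      have h3 := (wittIdeal K).add_mem ((wittIdeal K).add_mem h1 h2) hyp
      simp only [diagSum_eq, Fin.sum_univ_two, Matrix.cons_val_zero, Matrix.cons_val_one,
        Finset.univ_unique, Fin.default_eq_zero, Finset.sum_singleton, Fin.isValue] at h3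
      have h4 : gen a + gen (-a) = gen a + gen (-a) - (gen 1 + gen (-a ^ 2)) +
          (gen (-a ^ 2) - gen (-1)) + (gen 1 + gen (-1)) := by abel
      rw [SetLike.mem_coe, h4]
      exact h3
    · have := hsub (equiv_of_val (u := ![a, b]) (v := ![c, a * b * c]) (a := (a : K)) (b := b) (c := c)
        (x := 1) (y := 1) (by simp) (by simp) (by simp) (by simp) (by simpa using h))
      simpa [diagSum_eq, Fin.sum_univ_two] using this

/-- Torsion in powers of the fundamental ideal. -/
lemma itors (hS : S_SOUND) (hD : S_DISC) {n : ℕ} (h : TorsZero n K) : ITorsZero n K := by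
  intro ξ hξ hN
  obtain ⟨N, hN0, hN⟩ := hN
  set e : WittRing K ≃+* W K := Ideal.quotEquivOfEq (wittIdeal_eq hS) with he
  have hcl : ∀ {m : ℕ} (a : Fin m → Kˣ), e (wittClass a) = cl a := by
    intro m a
    rw [← mk_diagSum]
    rfl
  have hle : (fundamentalIdeal K).map (e : WittRing K →+* W K) ≤ fI K := by
    rw [fundamentalIdeal, Ideal.map_span]
    refine Ideal.span_le.2 ?_
    rintro _ ⟨_, ⟨m, a, hm, rfl⟩, rfl⟩
    show e (wittClass a) ∈ fI K
    rw [hcl]
    exact ((hD K).1 m a).2 hm
  have h1 : e ξ ∈ fI K ^ n := by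
    have : e ξ ∈ ((fundamentalIdeal K) ^ n).map (e : WittRing K →+* W K) :=
      Ideal.mem_map_of_mem (e : WittRing K →+* W K) hξ
    rw [Ideal.map_pow] at this
    exact Ideal.pow_right_mono hle n this
  have h2 : e ξ = 0 := h _ h1 N hN0 (by
    rw [← nsmul_eq_mul, ← map_nsmul, hN, map_zero])
  exact (map_eq_zero_iff e e.injective).1 h2

end witt

/-- The assembly. -/
theorem final (hWVAL : S_WVAL) (hSOUND : S_SOUND) (hDISC : S_DISC) (hTOW : S_TOW) (hI2 : S_I2)
    (hI3 : S_I3) (hI4 : S_I4) (hLG : S_LG) (hLGT : S_LGT) (hW3 : S_W3) (hH12 : S_H12)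
    (hTOWER : S_TOWER)
    (hLAU : ∀ (k : Type) [Field k], ¬ Countable (LaurentSeries k) ∧
      ∃ i₁ i₂ : RatFunc k →+* LaurentSeries k,
        i₁ RatFunc.X = HahnSeries.single 1 1 ∧ i₂ RatFunc.X = HahnSeries.single (-1) 1 ∧
        (∀ x : k, i₁ (RatFunc.C x) = HahnSeries.C x) ∧ (∀ x : k, i₂ (RatFunc.C x) = HahnSeries.C x)) :
    ∃ (F : Type) (_ : Field F), (2 : RatFunc F) ≠ 0 ∧ 3 ≤ wInvariant (RatFunc F) ∧
      ITorsZero 4 (RatFunc F) := by
  obtain ⟨k, _, _, a, c, hkc, hreal, ha, hf, ha2, hf2, hodd, E, _, _, i, hi, hiE, hU⟩ := hTOWER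
  -- torsion in `I²` of the finite extensions of `k`
  have hl : ∀ (l : Type) [Field l] [Algebra k l] [FiniteDimensional k l], TorsZero 2 l := by
    intro l _ _ _
    have : CharZero l := charZero_of_injective_algebraMap (algebraMap k l).injective
    by_cases hj : ∃ j : l, j ^ 2 = -1
    · exact (hI2 l).1 hj (hTOW k hodd E i hi hiE hU l hj)
    · push Not at hj
      -- the field `l(j)`
      have hirr : Irreducible (X ^ 2 + 1 : l[X]) := by
        have hm : (X ^ 2 + 1 : l[X]).Monic := by monicity!
        have hd : (X ^ 2 + 1 : l[X]).natDegree = 2 := by compute_degree!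
        refine (Polynomial.Monic.irreducible_iff_roots_eq_zero_of_degree_le_three hm
          (by omega) (by omega)).2 ?_
        refine Multiset.eq_zero_of_forall_notMem fun x hx => ?_
        have := (Polynomial.mem_roots'.1 hx).2
        simp only [IsRoot.def, eval_add, eval_pow, eval_X, eval_one] at this
        exact hj x (eq_neg_of_add_eq_zero_left this)
      have : Fact (Irreducible (X ^ 2 + 1 : l[X])) := ⟨hirr⟩
      let l' := AdjoinRoot (X ^ 2 + 1 : l[X])
      have hroot : (AdjoinRoot.root (X ^ 2 + 1 : l[X])) ^ 2 = -1 := by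
        have := AdjoinRoot.eval₂_root (X ^ 2 + 1 : l[X])
        simp only [eval₂_add, eval₂_pow, eval₂_X, eval₂_one] at this
        exact eq_neg_of_add_eq_zero_left this
      have hd : (X ^ 2 + 1 : l[X]).natDegree = 2 := by compute_degree!
      have hfin : Module.finrank l l' = 2 := by
        rw [(AdjoinRoot.powerBasis hirr.ne_zero).finrank, AdjoinRoot.powerBasis_dim, hd]
      have : FiniteDimensional l l' := Module.finite_of_finrank_pos (by omega)
      have : FiniteDimensional k l' := FiniteDimensional.trans k l l'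
      exact (hI2 l).2 hj ⟨l', inferInstance, inferInstance, AdjoinRoot.root _, hroot, hfin,
        hTOW k hodd E i hi hiE hU l' ⟨_, hroot⟩⟩
  -- the field `F`
  obtain ⟨hunc, i₁, i₂, hi₁, hi₂, hC₁, hC₂⟩ := hLAU k
  have hcz : CharZero (LaurentSeries k) :=
    charZero_of_injective_algebraMap (algebraMap k (LaurentSeries k)).injective
  have hcR : Countable (RatFunc k) := by
    have hp : Countable k[X] := by
      have h1 : Function.Surjective (fun l : List k => ∑ i : Fin l.length, C l[i] * X ^ (i : ℕ)) := by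
        intro p
        refine ⟨List.ofFn (fun i : Fin (p.natDegree + 1) => p.coeff i), ?_⟩
        conv_rhs => rw [p.as_sum_range_C_mul_X_pow]
        rw [Finset.sum_range]
        simp only [Fin.getElem_fin, List.getElem_ofFn]
        refine Fintype.sum_equiv (finCongr (by simp)) _ _ fun i => ?_
        simp
      exact h1.countable
    have h2 : Function.Surjective (fun q : k[X] × k[X] =>
        algebraMap k[X] (RatFunc k) q.1 / algebraMap k[X] (RatFunc k) q.2) := by
      intro x
      exact ⟨(x.num, x.denom), x.num_div_denom⟩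
    exact h2.countable
  obtain ⟨F, _, ι, j₁, j₂, hFc, hj₁, hj₂, hLGP⟩ :=
    hLG (LaurentSeries k) (LaurentSeries k) hunc hunc (RatFunc k) hcR i₁ i₂
  have hczF : CharZero F := j₁.charZero
  have hN : ∀ (N : Type) [Field N] [Algebra (LaurentSeries k) N]
      [FiniteDimensional (LaurentSeries k) N], TorsZero 3 N := hI3 k hl
  have hL : ∀ (L : Type) [Field L] [Algebra F L] [FiniteDimensional F L], TorsZero 3 L :=
    hLGT F (LaurentSeries k) (LaurentSeries k) j₁ j₂ hLGP hN hN
  have h4 : TorsZero 4 (RatFunc F) := hI4 F hL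
  have hczR : CharZero (RatFunc F) :=
    charZero_of_injective_algebraMap (algebraMap F (RatFunc F)).injective
  refine ⟨F, inferInstance, two_ne_zero, ?_, itors hSOUND hDISC h4⟩
  -- the form
  set φ : k →+* F := ι.comp RatFunc.C with hφ
  set α : F := ι RatFunc.X with hα
  have hc1 : ∀ x : k, j₁ (φ x) = HahnSeries.C x := by
    intro x
    rw [← hC₁ x, ← hj₁]; rfl
  have hc2 : ∀ x : k, j₂ (φ x) = HahnSeries.C x := by
    intro x
    rw [← hC₂ x, ← hj₂]; rfl
  have ha1 : j₁ α = HahnSeries.single 1 1 := by rw [← hi₁, ← hj₁]; rfl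
  have ha2' : j₂ α = HahnSeries.single (-1) 1 := by rw [← hi₂, ← hj₂]; rfl
  obtain ⟨H1, H2, H3, H4⟩ := hH12 k hodd hreal a c ha hf F φ j₁ j₂ α hc1 hc2 ha1 ha2'
  obtain ⟨r, g, hg⟩ := hf2
  obtain ⟨a₁, a₂, ha12⟩ := ha2
  have hW := hW3 F α (φ a) (φ c) ⟨r, fun i => (g i).map φ, by
      rw [← fpoly_map, hg, Polynomial.map_sum]
      simp only [Polynomial.map_pow]⟩
    ⟨φ a₁, φ a₂, by rw [ha12]; simp⟩ H1 H2 H3 H4
  exact w_ge two_ne_zero hW.1 hW.2.1 hW.2.2


/-- **A field with `w`-invariant at least three in which `I⁴` has no torsion.** -/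
theorem result : ∃ (K : Type) (_ : Field K), (2 : K) ≠ 0 ∧ 3 ≤ wInvariant K ∧ ITorsZero 4 K := by
  have hWVAL : S_WVAL := Pool.Agent.Helper86.W4.wval_thm
  have hSOUND : S_SOUND := Pool.Agent.Helper86.W4.sound_thm
  have hPFI : S_PFI := Pool.Agent.Helper51.W4.PFI_thm hWVAL hSOUND
  have hDISC : S_DISC := Pool.Agent.Helper92.W4.disc_thm
  have hPHI : S_PHI := Pool.Agent.Helper52.W4.phi_thm
  have hTOW : S_TOW := Pool.Agent.Helper39.W4.tow_thm Pool.Agent.Helper51.W4.UNIQ_thm
  have hI2 : S_I2 := Pool.Agent.Helper51.W4.I2_thm hWVAL hSOUND hPFI hDISC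
  have hI3 : S_I3 := Pool.Agent.Helper78.W4.i3_thm hPHI hSOUND hWVAL
  have hMIL : S_MIL := Pool.Agent.Helper52.W4.mil_thm Pool.Agent.Helper77.W4.dvp_thm
  have hI4 : S_I4 := Pool.Agent.Helper77.W4.i4_thm hPHI hMIL
  have hCL : S_CL := Pool.Agent.Helper92.W4.cl_thm
  have hLG : S_LG := Pool.Agent.Helper92.W4.lg_thm Pool.Agent.Helper49.W4.lgstep_thm hCL
  have hLGT : S_LGT := Pool.Agent.Helper92.W4.lgt_thm hWVAL hSOUND hDISC
  have hW3 : S_W3 := Pool.Agent.Helper41.W4.w3_thm
  have hH12 : S_H12 := Pool.Agent.Helper78.W4.h12_thm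
  have hDEGB : S_DEGB := Pool.Agent.Helper99.W4.degb_thm
  have hDED : S_DED := Pool.Agent.Helper99.W4.ded_thm
  have hADD : S_ADD := Pool.Agent.Helper5.W4.add_thm
  have hPT : S_PT := Pool.Agent.Helper5.W4.pt_thm
  have hEL3 : S_EL3 := Pool.Agent.Helper55.W4.el3_thm hDEGB
  have hEL2R : S_EL2R := Pool.Agent.Helper5.W4.el2r_thm hDED
  have hEL2C : S_EL2C := Pool.Agent.Helper5.W4.el2c_thm hDED Pool.Agent.Helper41.W4.PIDC.pidc_thm
    Pool.Agent.Helper77.W4.nsp_thm
  have hFORM : S_FORM := form_thm hDEGB hDED hADD hEL3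
  have hRAT : S_RAT := rat_thm hFORM hEL2R
  have hCON : S_CON := Pool.Agent.Helper88.W4.con_thm hRAT hFORM hEL2C
  have hODD : S_ODD := Pool.Agent.Helper55.W4.odd_thm hDEGB hDED hADD
  have hBASE : S_BASE := Pool.Agent.Helper66.W4.BASE.base_thm hDEGB hDED hADD
  have hTOWER : S_TOWER := Pool.Agent.Helper89.W4.tower_thm hCL
    (Pool.Agent.Helper49.W4.grat_thm hRAT) (Pool.Agent.Helper49.W4.gcon_thm hCON)
    (Pool.Agent.Helper49.W4.godd_thm hODD) (Pool.Agent.Helper49.W4.gbase_thm hBASE) hPT
  obtain ⟨F, _, h⟩ := final hWVAL hSOUND hDISC hTOW hI2 hI3 hI4 hLG hLGT hW3 hH12 hTOWER lau_thm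
  exact ⟨RatFunc F, inferInstance, h⟩

end Pool.Agent.Results.MP_2fcb4d_al.TorsionFreeFourthPower
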